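import Pool.Agent.Y524I.Img
import Pool.Agent.Y812.SS.Wr
import Pool.Agent.Y331.SS.Lim

/-!
# Iterated monodromy groups of expanding maps are Farrell–Jones groups

`C` is any class of groups with the closure properties `Closed C`, all of which are known for the
class of the groups that satisfy the Farrell–Jones conjecture for A-theory with coefficients and
finite wreath products.

Let `f : M₁ → M` be a covering and `ι : M₁ → M` continuous (for a partial self-covering `ι` is the
inclusion of the open subset `M₁` of `M`). A path in `M` is lifted to `M₁` by `f` and then mapped to
`M` by `ι`; iterating this, the fundamental group of `M` acts on the tree of the iterated preimages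
of the base point. The iterated monodromy group is the quotient of the fundamental group by the
subgroup `K` of the loops all of whose iterated lifts are closed.

Outline of the proof. A choice of paths from `t` to the points `ι x`, `x ∈ f⁻¹ t`, gives a
homomorphism from the fundamental group `Γ` to the wreath product of `Γ` with the symmetric group
of `f⁻¹ t`. If all iterated lifts of a loop are closed, then they are closed paths whose lengths
tend to zero, so the lifts of some level are all null-homotopic: the elements of `K` become
trivial after finitely many steps of the recursion. So the iterated monodromy group is the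
directed colimit of the images of `Γ` in the iterated wreath products.
-/

set_option autoImplicit false

namespace Pool.Agent.Results.MP_2a547c_gt.ExpandingMonodromy

open Pool.Agent.Y462.SS Pool.Agent.Y524I
open scoped ENNReal

/-- Let `C` be a class of groups with the closure properties `Closed C`. Let `f : M₁ → M` be a
covering map, `ι : M₁ → M` continuous, `t` a point of `M` with finitely many preimages `x`, such
that `t` is joined to all `ι x` by a path. Let `r` be a map from `M` to a metric space, and measure
the length of the paths in `M` by `r`. Suppose that lifting by `f` (followed by `ι`) multiplies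
lengths by at most `c < 1`, that every closed path of length less than `ε`, all of whose iterated
lifts are closed, is null-homotopic, and that every loop at `t` is homotopic to a loop of finite
length. If the fundamental group of `M` at `t` is in `C` then so is the iterated monodromy group,
the quotient of the fundamental group by the loops all of whose iterated lifts are closed. -/
theorem result (C : ∀ (G : Type) [Group G], Prop) (hC : Closed C)
    {M M₁ O : Type} [TopologicalSpace M] [TopologicalSpace M₁] [PseudoEMetricSpace O]
    {f : M₁ → M} (cov : IsCoveringMap f) (ι : C(M₁, M)) (r : M → O) (t : M)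
    (hfin : Finite (f ⁻¹' {t})) (hj : ∀ x : f ⁻¹' {t}, Joined t (ι x.1))
    (c : ℝ≥0∞) (hc1 : c < 1)
    (hc : ∀ (a b : M₁) (P : Path a b),
      plen r (P.map ι.continuous) ≤ c * plen r (P.map cov.continuous))
    (ε : ℝ≥0∞) (hε0 : 0 < ε)
    (hε : ∀ (m : M) (p : Path m m), plen r p < ε →
      (∀ n, Triv cov ι n m (Path.Homotopic.Quotient.mk p)) →
      Path.Homotopic.Quotient.mk p = Path.Homotopic.Quotient.refl m)
    (hrect : ∀ γ : Path.Homotopic.Quotient t t, ∃ p : Path t t,
      Path.Homotopic.Quotient.mk p = γ ∧ plen r p ≠ ⊤)
    (hG : C (FundamentalGroup M t)) :
    ∃ (K : Subgroup (FundamentalGroup M t)) (_ : K.Normal),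
      (∀ γ, γ ∈ K ↔ ∀ n, Triv cov ι n t γ) ∧ C (FundamentalGroup M t ⧸ K) :=
  img_closed cov ι t r (Pool.Agent.Y331.SS.t_lim Pool.Agent.Y812.SS.t_wr) C hC hj hfin hc1
    (fun P => hc _ _ P) hε0 hε hrect hG

end Pool.Agent.Results.MP_2a547c_gt.ExpandingMonodromy
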