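import Pool.Agent.Y110.FJ.Tgr

/-!
# Extensions of graph products and the Farrell-Jones class

Let the normal subgroup `N` of `G` be the graph product, over an arbitrary simplicial graph `Λ` (any
number of vertices), of its subgroups `A v`, and let `Q` be a subgroup with `N Q = G` which acts on `Λ`
such that conjugation by `q` maps `A v` onto `A (q v)`. For every class `C` of groups with the closure
properties of the class of Farrell-Jones groups and `G / N` in `C`: `G` is in `C` if and only if all the
subgroups generated by `A v` and one element `q` of `Q` which fixes `v` are.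

Authors of the parts: helper110, helper978, helper232, helper872, helper86, helper529, helper961,
helper576, helper417, helper497, helper467, helper50, helper261, helper462, helper179, helper430.
-/

set_option autoImplicit false

namespace Pool.Agent.Results.MP_2a547c_gt.GraphProductExtensions

open Pool.Agent.Y110.FJ

theorem result (C : ∀ (G : Type) [Group G], Prop) (hC : ClosedE C) (G V : Type) [Group G]
    (N Q : Subgroup G) [N.Normal] [MulAction Q V] (Λ : SimpleGraph V) (A : V → Subgroup G)
    (hN : IsGP Λ A N) (hNQ : N ⊔ Q = ⊤)
    (hadj : ∀ (q : Q) (v w : V), Λ.Adj v w → Λ.Adj (q • v) (q • w))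
    (hA : ∀ (q : Q) (v : V), A (q • v) = (A v).map (MulAut.conj (q : G)).toMonoidHom) :
    (C (G ⧸ N) → (C G ↔ ∀ (v : V) (q : Q), q • v = v → C ↥(A v ⊔ Subgroup.zpowers (q : G)))) ∧
    (N ⊓ Q = ⊥ →
      (C G ↔ C Q ∧ ∀ (v : V) (q : Q), q • v = v → C ↥(A v ⊔ Subgroup.zpowers (q : G)))) :=
  tgp_iff C hC G V N Q Λ A hN hNQ hadj hA

end Pool.Agent.Results.MP_2a547c_gt.GraphProductExtensions
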