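import Pool.Agent.Y110.FJ.Mit

/-!
# Every Farrell-Jones group embeds in an acyclic Farrell-Jones group

For every class `C` of groups with the closure properties of the class of Farrell-Jones groups
(`ClosedE`): every group in `C` has a mitosis in `C`, and embeds in a mitotic group in `C`, which is
countable (torsion-free) if the group is. Mitotic groups are acyclic (Baumslag, Dyer and Heller).

Authors of the parts: helper110, helper397, helper474, helper983, helper569, helper70, helper529,
helper961, helper576, helper497, helper467, helper462, helper179, helper430.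
-/

set_option autoImplicit false

namespace Pool.Agent.Results.MP_2a547c_gt.MitoticEmbedding

open Pool.Agent.Y110.FJ

theorem result (C : ∀ (G : Type) [Group G], Prop) (hC : ClosedE C) (G : Type) [Group G] :
    (C G ↔ ∃ (P : Type) (_ : Group P) (f : G →* P) (s d : P), Function.Injective f ∧ C P ∧
      Subgroup.closure (Set.range f ∪ {s, d}) = ⊤ ∧
      (∀ a, d⁻¹ * f a * d = f a * (s⁻¹ * f a * s)) ∧
      (∀ a b, f a * (s⁻¹ * f b * s) = s⁻¹ * f b * s * f a) ∧ (TFree G → TFree P)) ∧
    (C G ↔ ∃ (H : Type) (_ : Group H) (f : G →* H), Function.Injective f ∧ C H ∧ IsMitotic H ∧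
      (Countable G → Countable H) ∧ (TFree G → TFree H)) := by
  refine ⟨⟨fun h => ?_, ?_⟩, ⟨fun h => mit_ C hC G h, ?_⟩⟩
  · obtain ⟨P, _, f, s, d, h1, h2, h3, h4, -, h5, h6⟩ := Mit.step G C hC h
    exact ⟨P, inferInstance, f, s, d, h2, h1, h5, h3, h4, h6⟩
  · rintro ⟨P, _, f, s, d, hf, hP, -⟩
    exact hC.base.of_injective G P f hf hP
  · rintro ⟨H, _, f, hf, hH, -⟩
    exact hC.base.of_injective G H f hf hH

end Pool.Agent.Results.MP_2a547c_gt.MitoticEmbedding
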