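import Pool.Agent.Y462.GE.Final

/-!
# `GE_2` over rings with a degree function and `GL_2` over polynomial rings

`C` is any class of groups with the closure properties `ClosedE C`, all of which are known for the
class of the groups that satisfy the A-theoretic Farrell–Jones Conjecture with coefficients and
finite wreath products.
-/

set_option autoImplicit false

namespace Pool.Agent.Results.MP_2a547c_gt.PolynomialRings

open Pool.Agent.Y462.GE (U2 GE2 IsDeg)
open Pool.Agent.Y110.FJ (ClosedE)

open Polynomial in
/-- Let `C` be a class of groups with the closure properties `ClosedE C` and `k` a field such that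
`GL_2(k)` is in `C`. Then `GL_2(k[X])` is in `C`, and so is `GE_2(R)` for every (not necessarily
commutative) `k`-algebra `R` with a degree function. -/
theorem result (C : ∀ (G : Type) [Group G], Prop) (hC : ClosedE C) (k : Type) [Field k]
    (hk : C (U2 k)) :
    C (U2 k[X]) ∧ ∀ (R : Type) [Ring R] [Nontrivial R] [Algebra k R] (deg : R → WithBot ℕ),
      IsDeg k R deg → C (GE2 k R) :=
  ⟨Pool.Agent.Y462.GE.gl2_ C hC k hk, fun R _ _ _ deg hdeg =>
    Pool.Agent.Y462.GE.ge2_ C hC k R deg hdeg hk⟩

end Pool.Agent.Results.MP_2a547c_gt.PolynomialRings
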